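import Pool.Agent.CS4.Final

/-!
# MP_7e3a18_an, the case `n = 4` for sets with a centre of symmetry, without convexity

For every nonempty bounded open plane set `Ω` with a centre of symmetry the quantity
`F_4 (Ω) = (μ_2 + μ_3 + μ_4) A ^ 3 / I` is at most its value for the unit disc.

The Neumann eigenvalues are given by the min-max formula of the frozen statement `S05177`
(finite-dimensional spaces of `C^1` functions on the plane, restricted to `Ω`).
-/

set_option autoImplicit false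

open MeasureTheory

namespace Pool.Agent.Results.MP_7e3a18_an.CentralSymmetryFour

/-- `μ_k (Ω)`: the `k`-th Neumann eigenvalue (`μ_1 = 0`) by the min-max formula, exactly as in the
frozen statement `S05177`. -/
noncomputable def mu (Ω : Set (EuclideanSpace ℝ (Fin 2))) (k : ℕ) : ℝ :=
  sInf {r : ℝ | ∃ V : Submodule ℝ (EuclideanSpace ℝ (Fin 2) → ℝ),
    (∀ f ∈ V, ContDiff ℝ 1 f) ∧ (∀ f ∈ V, (∀ x ∈ Ω, f x = 0) → f = 0) ∧
    FiniteDimensional ℝ V ∧ Module.finrank ℝ V = k ∧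
    r = sSup {q : ℝ | ∃ f ∈ V, f ≠ 0 ∧
      q = (∫ x in Ω, ‖fderiv ℝ f x‖ ^ 2) / (∫ x in Ω, f x ^ 2)}}

/-- `F_n (Ω) = (μ_2 + ... + μ_n) A ^ 3 / I`, with `A` the area of `Ω` and `I` its polar moment of
inertia about the centroid. -/
noncomputable def F (n : ℕ) (Ω : Set (EuclideanSpace ℝ (Fin 2))) : ℝ :=
  (∑ k ∈ Finset.Icc 2 n, mu Ω k) * (volume Ω).toReal ^ 3 /
    (∫ x in Ω, ‖x - ((volume Ω).toReal)⁻¹ • ∫ y in Ω, y‖ ^ 2)

/-- The case `n = 4` of the conjecture for every nonempty bounded open set `Ω` with a centre of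
symmetry `p` (`Ω` is invariant under the reflection `x ↦ 2 p - x`): `F_4 (Ω) ≤ F_4 (unit disc)`. -/
theorem result (Ω : Set (EuclideanSpace ℝ (Fin 2))) (hΩ : IsOpen Ω)
    (hb : Bornology.IsBounded Ω) (hne : Ω.Nonempty) (p : EuclideanSpace ℝ (Fin 2))
    (hs : ∀ x ∈ Ω, (2 : ℝ) • p - x ∈ Ω) :
    F 4 Ω ≤ F 4 (Metric.ball 0 1) :=
  Pool.Agent.CS4.main hΩ hb hne hs

end Pool.Agent.Results.MP_7e3a18_an.CentralSymmetryFour
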