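import Pool.Agent.Neu.Final

/-!
# MP_7e3a18_an, the case `n = 3`, without convexity

For every nonempty bounded open plane set `Ω` the quantity
`F_3 (Ω) = (μ_2 + μ_3) A ^ 3 / I` is at most its value for the unit disc.

The Neumann eigenvalues are given by the min-max formula of the frozen statement `S05177`
(finite-dimensional spaces of `C^1` functions on the plane, restricted to `Ω`).
-/

set_option autoImplicit false

open MeasureTheory

namespace Pool.Agent.Results.MP_7e3a18_an.FirstTwoNonzero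

/-- `μ_k (Ω)`: the `k`-th Neumann eigenvalue (`μ_1 = 0`) by the min-max formula, exactly as in the
frozen statement `S05177`. -/
noncomputable def mu (Ω : Set (EuclideanSpace ℝ (Fin 2))) (k : ℕ) : ℝ :=
  sInf {r : ℝ | ∃ V : Submodule ℝ (EuclideanSpace ℝ (Fin 2) → ℝ),
    (∀ f ∈ V, ContDiff ℝ 1 f) ∧ (∀ f ∈ V, (∀ x ∈ Ω, f x = 0) → f = 0) ∧
    FiniteDimensional ℝ V ∧ Module.finrank ℝ V = k ∧
    r = sSup {q : ℝ | ∃ f ∈ V, f ≠ 0 ∧
      q = (∫ x in Ω, ‖fderiv ℝ f x‖ ^ 2) / (∫ x in Ω, f x ^ 2)}}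

/-- `F_n (Ω) = (μ_2 + ... + μ_n) A ^ 3 / I`, with `A` the area of `Ω` and `I` its polar moment of
inertia about the centroid. -/
noncomputable def F (n : ℕ) (Ω : Set (EuclideanSpace ℝ (Fin 2))) : ℝ :=
  (∑ k ∈ Finset.Icc 2 n, mu Ω k) * (volume Ω).toReal ^ 3 /
    (∫ x in Ω, ‖x - ((volume Ω).toReal)⁻¹ • ∫ y in Ω, y‖ ^ 2)

/-- The case `n = 3` of the conjecture, for every nonempty bounded open set: the sum of the
Neumann eigenvalues `μ_2 + μ_3` times area cubed over the polar moment of inertia about the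
centroid is at most the same quantity for the unit disc. -/
theorem result (Ω : Set (EuclideanSpace ℝ (Fin 2))) (hΩ : IsOpen Ω)
    (hb : Bornology.IsBounded Ω) (hne : Ω.Nonempty) :
    F 3 Ω ≤ F 3 (Metric.ball 0 1) :=
  Pool.Agent.Neu.main hΩ hb hne

end Pool.Agent.Results.MP_7e3a18_an.FirstTwoNonzero
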