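import Pool.Agent.NSY.Mn2

/-!
# MP_7e3a18_an, rotationally symmetric domains and their affine images, all `n` up to order `N ^ 2`

Let `Ω` be a bounded open plane set invariant under the rotation by `2π/N`, `N ≥ 3`, which is convex
(`N ≥ 4`) or contains a centred disc of area at least `|Ω| / √2`.  Then
`F_n (T Ω) ≤ F_n (disc)` for every invertible affine map `T` and every `n` with
`μ_n (disc) < (j'_{⌈N/2⌉,1}) ^ 2`, in particular for all `n ≤ N ^ 2 / 32`.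
-/

set_option autoImplicit false

open MeasureTheory

namespace Pool.Agent.Results.MP_7e3a18_an.SymmetricAllN

/-- `μ_k (Ω)`: the `k`-th Neumann eigenvalue (`μ_1 = 0`) by the min-max formula, exactly as in the
frozen statement `S05177`. -/
noncomputable def mu (Ω : Set (EuclideanSpace ℝ (Fin 2))) (k : ℕ) : ℝ :=
  sInf {r : ℝ | ∃ V : Submodule ℝ (EuclideanSpace ℝ (Fin 2) → ℝ),
    (∀ f ∈ V, ContDiff ℝ 1 f) ∧ (∀ f ∈ V, (∀ x ∈ Ω, f x = 0) → f = 0) ∧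
    FiniteDimensional ℝ V ∧ Module.finrank ℝ V = k ∧
    r = sSup {q : ℝ | ∃ f ∈ V, f ≠ 0 ∧
      q = (∫ x in Ω, ‖fderiv ℝ f x‖ ^ 2) / (∫ x in Ω, f x ^ 2)}}

/-- `F_n (Ω) = (μ_2 + ... + μ_n) A ^ 3 / I`, with `A` the area of `Ω` and `I` its polar moment of
inertia about the centroid. -/
noncomputable def F (n : ℕ) (Ω : Set (EuclideanSpace ℝ (Fin 2))) : ℝ :=
  (∑ k ∈ Finset.Icc 2 n, mu Ω k) * (volume Ω).toReal ^ 3 /
    (∫ x in Ω, ‖x - ((volume Ω).toReal)⁻¹ • ∫ y in Ω, y‖ ^ 2)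

/-- The least value of the Rayleigh quotient
`∫_0^1 (f'^2 r + m^2 f^2 / r) dr / ∫_0^1 f^2 r dr` over the `C^1` functions `f` with `f 0 = 0`: for
`m ≥ 1` the least Neumann eigenvalue of the unit disc with eigenfunctions `f (r) e^{± i m θ}`, which is
`(j'_{m,1})^2` (first positive zero of the derivative of the Bessel function `J_m`). -/
noncomputable def lam (m : ℕ) : ℝ :=
  sInf {q : ℝ | ∃ f f' : ℝ → ℝ, (∀ r, HasDerivAt f (f' r) r) ∧ Continuous f' ∧ f 0 = 0 ∧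
    (∫ r in (0 : ℝ)..1, f r ^ 2 * r) ≠ 0 ∧
    q = (∫ r in (0 : ℝ)..1, (f' r ^ 2 * r + (m : ℝ) ^ 2 * f r ^ 2 / r)) /
      (∫ r in (0 : ℝ)..1, f r ^ 2 * r)}

/-- the rotation of the plane about the origin by the angle `α` -/
noncomputable def rot (α : ℝ) (x : EuclideanSpace ℝ (Fin 2)) : EuclideanSpace ℝ (Fin 2) :=
  !₂[Real.cos α * x 0 - Real.sin α * x 1, Real.sin α * x 0 + Real.cos α * x 1]

/-- Let `N ≥ 3` and let `Ω` be a nonempty bounded open plane set, invariant under the rotation by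
`2π/N` about the origin, which contains a disc `B (0, ρ)` with `|Ω| ≤ √2 π ρ ^ 2`, or is convex
with `N ≥ 4`.  Let `n` satisfy `μ_n (disc) < (j'_{⌈N/2⌉,1})^2` or `32 n ≤ N ^ 2`.  Then
`F_n (T Ω) ≤ F_n (disc)` for every invertible affine map `T` of the plane. -/
theorem result (N n : ℕ) (hN : 3 ≤ N) (Ω : Set (EuclideanSpace ℝ (Fin 2))) (hΩ : IsOpen Ω)
    (hb : Bornology.IsBounded Ω) (hne : Ω.Nonempty)
    (hs : ∀ x ∈ Ω, rot (2 * Real.pi / N) x ∈ Ω)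
    (hd : (∃ ρ : ℝ, 0 < ρ ∧ Metric.ball 0 ρ ⊆ Ω ∧
      (volume Ω).toReal ≤ √2 * Real.pi * ρ ^ 2) ∨ (4 ≤ N ∧ Convex ℝ Ω))
    (hn : mu (Metric.ball 0 1) n < lam ((N + 1) / 2) ∨ 32 * n ≤ N ^ 2)
    (T : EuclideanSpace ℝ (Fin 2) ≃ᵃ[ℝ] EuclideanSpace ℝ (Fin 2)) :
    F n (T '' Ω) ≤ F n (Metric.ball 0 1) :=
  Pool.Agent.NSY.main hN hΩ hb hne hs hd hn T

end Pool.Agent.Results.MP_7e3a18_an.SymmetricAllN
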